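import Pool.Agent.helper83.SB.Spec
import Pool.Agent.helper18.SC.CH2

/-!
Row sb:ARG: a minimizer gives a point of the shell.
-/

set_option autoImplicit false

open scoped Pointwise ContDiff
open MeasureTheory Set Filter Topology

namespace Pool.Agent.helper83.SB

open Pool.Agent.helper83.SC

lemma ARG_sub {n : ℕ} {K : Set (E n)} (hK : IsBody K) (v w : E n) :
    hE K (v + w) ≤ hE K v + hE K w := by
  apply CH2_hE_le hK
  intro x hx
  rw [inner_add_right]
  exact add_le_add (CH2_le hK hx v) (CH2_le hK hx w)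

theorem ARG_of (hPRJ : PRJ_stmt) (hDIR : DIR_stmt) (hPTC : PTC_stmt) : ARG_stmt := by
  intro m b K hK t ht p y hy
  obtain ⟨-, -, hin, hce, h1e, -, -, hrep, -, hcadd, hcsm⟩ := hPTC b
  have hhom : ∀ c : ℝ, 0 ≤ c → ∀ v, hE K (c • v) = c * hE K v := (hE_facts_of hK hK).2.2.1
  set s : ℝ := ft b K t y - inner ℝ p y with hs
  set z : E (m + 1) := pt b p s with hz
  set w₀ : E (m + 1) := emb b y with hw₀
  obtain ⟨hn, -, -, -⟩ := hPRJ hK
  obtain ⟨hxK, hxd⟩ := hn z
  have hw1 : 1 ≤ ‖w₀‖ := h1e y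
  -- the function `Q`
  have hQ0 : hE K w₀ + t * ‖w₀‖ - inner ℝ z w₀ = 0 := by
    have h1 : inner ℝ z w₀ = inner ℝ p y + s := hin p s y
    rw [h1, hs]
    simp only [ft, chart]
    ring
  have hQemb : ∀ y', 0 ≤ hE K (emb b y') + t * ‖emb b y'‖ - inner ℝ z (emb b y') := by
    intro y'
    have h1 : inner ℝ z (emb b y') = inner ℝ p y' + s := hin p s y'
    have h2 := hy y'
    simp only [ft, chart] at h2 hs
    rw [h1, hs]
    linarith
  have hQpos : ∀ w, 0 < (coord b w).2 → 0 ≤ hE K w + t * ‖w‖ - inner ℝ z w := by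
    intro w hw
    have h1 := hrep w hw.ne'
    have h2 := hQemb ((coord b w).2⁻¹ • (coord b w).1)
    set c := (coord b w).2 with hc
    set w' := emb b (c⁻¹ • (coord b w).1) with hw'
    rw [h1, hhom c hw.le, norm_smul, inner_smul_right, Real.norm_of_nonneg hw.le]
    have h3 := mul_nonneg hw.le h2
    linarith
  have hQ : ∀ w, 0 ≤ hE K w + t * ‖w‖ - inner ℝ z w := by
    intro w
    set c : ℝ := |(coord b w).2| + 1 with hc
    have hc0 : 0 < c := by positivity
    have h1 : 0 < (coord b (w + c • w₀)).2 := by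
      rw [hcadd, hcsm, hce]
      simp only [Prod.snd_add, Prod.smul_snd, smul_eq_mul, mul_one]
      have := neg_abs_le (coord b w).2
      linarith
    have h2 := hQpos _ h1
    have h3 : hE K (w + c • w₀) ≤ hE K w + c * hE K w₀ := by
      rw [← hhom c hc0.le]
      exact ARG_sub hK _ _
    have h4 : ‖w + c • w₀‖ ≤ ‖w‖ + c * ‖w₀‖ := by
      refine (norm_add_le _ _).trans ?_
      rw [norm_smul, Real.norm_of_nonneg hc0.le]
    have h5 : inner ℝ z (w + c • w₀) = inner ℝ z w + c * inner ℝ z w₀ := by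
      rw [inner_add_right, inner_smul_right]
    have h6 : t * ‖w + c • w₀‖ ≤ t * (‖w‖ + c * ‖w₀‖) := mul_le_mul_of_nonneg_left h4 ht.le
    have h7 : hE K w + t * ‖w‖ - inner ℝ z w + c * (hE K w₀ + t * ‖w₀‖ - inner ℝ z w₀) ≥
        hE K (w + c • w₀) + t * ‖w + c • w₀‖ - inner ℝ z (w + c • w₀) := by
      rw [h5]
      linarith
    rw [hQ0, mul_zero, add_zero] at h7
    linarith
  -- the distance
  have hxw : inner ℝ (nst K z) w₀ ≤ hE K w₀ := CH2_le hK hxK w₀
  have hsplit : inner ℝ z w₀ = inner ℝ (nst K z) w₀ + inner ℝ (z - nst K z) w₀ := by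
    rw [inner_sub_left]
    ring
  have hkey : t * ‖w₀‖ ≤ inner ℝ (z - nst K z) w₀ := by linarith
  have hdn : ‖z - nst K z‖ = Metric.infDist z K := by
    rw [← dist_eq_norm]
    exact hxd
  have hdt : t ≤ Metric.infDist z K := by
    have h1 := real_inner_le_norm (z - nst K z) w₀
    rw [hdn] at h1
    have h2 : t * ‖w₀‖ ≤ Metric.infDist z K * ‖w₀‖ := hkey.trans h1
    exact le_of_mul_le_mul_right h2 (by linarith)
  have hd0 : 0 < Metric.infDist z K := lt_of_lt_of_le ht hdt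
  obtain ⟨hν1, hν2, hν3, hν4, hν5⟩ := hDIR hK z hd0
  have hdt' : Metric.infDist z K ≤ t := by
    have h1 := hQ (dir K z)
    rw [hν1, hν5] at h1
    linarith
  have hd : Metric.infDist z K = t := le_antisymm hdt' hdt
  refine ⟨hd, ?_⟩
  have h1 : inner ℝ (z - nst K z) w₀ = t * inner ℝ (dir K z) w₀ := by
    have h2 : z - nst K z = t • dir K z := by
      rw [← hd]
      exact sub_eq_of_eq_add' hν2
    rw [h2, real_inner_smul_left]
  rw [h1] at hkey
  have h2 : ‖w₀‖ ≤ inner ℝ (dir K z) w₀ := le_of_mul_le_mul_left hkey ht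
  have h3 : inner ℝ (dir K z) w₀ = ‖dir K z‖ * ‖w₀‖ := by
    apply le_antisymm (real_inner_le_norm _ _)
    rw [hν1, one_mul]
    exact h2
  have h4 := inner_eq_norm_mul_iff_real.1 h3
  rw [hν1, one_smul] at h4
  have h5 : ‖w₀‖ ≠ 0 := by
    have : 0 < ‖w₀‖ := by linarith
    exact this.ne'
  calc dir K z = (‖w₀‖⁻¹ * ‖w₀‖) • dir K z := by rw [inv_mul_cancel₀ h5, one_smul]
    _ = ‖w₀‖⁻¹ • (‖w₀‖ • dir K z) := (smul_smul _ _ _).symm
    _ = ‖w₀‖⁻¹ • w₀ := by rw [h4]

end Pool.Agent.helper83.SB
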